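import Pool.Agent.H55.APE.Start
import Pool.Agent.H19.A2.Jr
import Pool.Agent.H86.A2.Syf
import Pool.Agent.H24.RK.Loc

/-!
# H55-E2-ST2: the beginning of AP2 (MP_b39724_nt, all classes, stage 2)

For `G = P`, `q = id`, `b = 0`, `w = 0` the sum `SS` of `BB2` is `κ` times the sum of `wt (rP ∘ φ)` over the homomorphisms `SYF` (H86/A2/Syf), `κ` the number of the families `a : S0 → rP.ker` which centralise `φ₁` on the
decomposition groups at `S0`.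
-/

set_option autoImplicit false
set_option linter.dupNamespace false
set_option linter.unusedVariables false

open scoped NumberField
open IsDedekindDomain Filter Topology
open scoped Classical

noncomputable section

namespace H55.E2

open H63.MA H38.ML H38.BB H38.BG H57.PC H57.BRA H77.PC3 H77.WD Pool.Agent.H19.NF
  Pool.Agent.H19.AB H86.AP H35.CF H77.WE H24.RK H51.PF Pool.Agent.H19.A2 H86.A2 H55.APE

variable {K : Type} [Field K] [NumberField K] {Ω : Type} [Field Ω] [Algebra K Ω]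
  {p m N : ℕ} {ζ : K}

section cj

variable {D : RD0 K p ζ} {P Qg : Type} [Group P] [Fintype P] [Group Qg]

/-- the families of conjugations which give the type of `φ` -/
def Af (D : RD0 K p ζ) (Q : DP K Ω) (rP : P →* Qg) (φ₁ φ : Gal(Ω/K) →* P) :
    Finset ({v // v ∈ D.S0} → rP.ker) :=
  Finset.univ.filter fun a => ∀ v ∈ D.S0, ∀ σ ∈ dec (K := K) (Q.P v), φ σ = cjf D rP φ₁ a v σ

theorem cjf_in (rP : P →* Qg) (φ₁ : Gal(Ω/K) →* P) (a : {v // v ∈ D.S0} → rP.ker) {v : Pl K}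
    (hv : v ∈ D.S0) (σ : Gal(Ω/K)) :
    cjf D rP φ₁ a v σ = (a ⟨v, hv⟩ : P) * φ₁ σ * (a ⟨v, hv⟩ : P)⁻¹ := by
  unfold cjf
  rw [dif_pos hv]
  rfl

theorem af_card (Q : DP K Ω) (rP : P →* Qg) (φ₁ φ : Gal(Ω/K) →* P) :
    (Af D Q rP φ₁ φ).card = if TqT D.S0 Q rP.ker φ φ₁ then (Af D Q rP φ₁ φ₁).card else 0 := by
  split_ifs with h
  · choose g hg hgs using h
    obtain ⟨a₀, ha₀⟩ : ∃ a₀ : {v // v ∈ D.S0} → rP.ker, a₀ = fun v => ⟨g v.1 v.2, hg v.1 v.2⟩ :=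
      ⟨_, rfl⟩
    have hφ : ∀ v (hv : v ∈ D.S0), ∀ σ ∈ dec (K := K) (Q.P v),
        φ σ = (a₀ ⟨v, hv⟩ : P) * φ₁ σ * (a₀ ⟨v, hv⟩ : P)⁻¹ := by
      intro v hv σ hσ
      rw [ha₀]
      exact hgs v hv σ hσ
    symm
    refine Finset.card_bij (fun b _ => a₀ * b) ?_ ?_ ?_
    · intro b hb
      rw [Af, Finset.mem_filter] at hb ⊢
      refine ⟨Finset.mem_univ _, fun v hv σ hσ => ?_⟩
      have h1 := hb.2 v hv σ hσ
      rw [cjf_in rP φ₁ b hv] at h1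
      rw [cjf_in rP φ₁ _ hv, hφ v hv σ hσ]
      conv_lhs => rw [h1]
      rw [Pi.mul_apply, Subgroup.coe_mul, mul_inv_rev]
      simp only [mul_assoc]
    · intro b _ b' _ h
      exact mul_left_cancel h
    · intro a ha
      rw [Af, Finset.mem_filter] at ha
      refine ⟨a₀⁻¹ * a, ?_, mul_inv_cancel_left _ _⟩
      rw [Af, Finset.mem_filter]
      refine ⟨Finset.mem_univ _, fun v hv σ hσ => ?_⟩
      have h1 := ha.2 v hv σ hσ
      rw [cjf_in rP φ₁ a hv, hφ v hv σ hσ] at h1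
      rw [cjf_in rP φ₁ _ hv, Pi.mul_apply, Pi.inv_apply, Subgroup.coe_mul, Subgroup.coe_inv,
        mul_inv_rev, inv_inv]
      calc φ₁ σ = (a₀ ⟨v, hv⟩ : P)⁻¹ * ((a₀ ⟨v, hv⟩ : P) * φ₁ σ * (a₀ ⟨v, hv⟩ : P)⁻¹) *
            (a₀ ⟨v, hv⟩ : P) := by group
        _ = (a₀ ⟨v, hv⟩ : P)⁻¹ * ((a ⟨v, hv⟩ : P) * φ₁ σ * (a ⟨v, hv⟩ : P)⁻¹) *
            (a₀ ⟨v, hv⟩ : P) := by rw [h1]
        _ = _ := by simp only [mul_assoc]
  · rw [Finset.card_eq_zero, Af, Finset.filter_eq_empty_iff]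
    intro a _ ha
    apply h
    intro v hv
    refine ⟨a ⟨v, hv⟩, (a ⟨v, hv⟩).2, fun σ hσ => ?_⟩
    rw [← cjf_in rP φ₁ a hv]
    exact ha v hv σ hσ

theorem af_pos (Q : DP K Ω) (rP : P →* Qg) (φ₁ : Gal(Ω/K) →* P) :
    0 < (Af D Q rP φ₁ φ₁).card := by
  rw [Finset.card_pos]
  refine ⟨1, ?_⟩
  rw [Af, Finset.mem_filter]
  refine ⟨Finset.mem_univ _, fun v hv σ _ => ?_⟩
  rw [cjf_in rP φ₁ _ hv, Pi.one_apply, Subgroup.coe_one, one_mul, inv_one, mul_one]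

end cj

section vb

variable {P : Type} [Group P] [Fintype P] [NeZero (p ^ m)]

theorem vg_id0 (g s x : P) :
    Vg (m := m) (p := p) (MonoidHom.id P) (0 : P → P → ZMod (p ^ m)) g s x =
      if IsConj s g then WC s x else 0 := by
  have h := vg_id (p := p) (m := m) 0 g s x
  have e : (fun x y : P => 0 • (0 : P → P → ZMod (p ^ m)) x y) = 0 := by
    funext x y
    simp
  rwa [e] at h

end vb

/-- the pairs -/
def RP2 {D : RD0 K p ζ} (L : LDs D Ω) (Q : DP K Ω) {P : Type} [Group P] [NeZero N] (c : CL p N P)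
    (T : Subgroup P) (φ₁ : Gal(Ω/K) →* P) (E : Finset (Pl K)) (e : Pl K → P) (M : ℕ)
    (T₀ Y : ℝ) : Finset (Σ _ : Pl K → Option (Fin N), (Gal(Ω/K) →* P)) :=
  (RC D N M T₀ Y E).sigma fun f => (HS2 L P (sp (ZZ D Y \ E) f ∪ E)).filter fun φ =>
    TqT D.S0 Q T φ φ₁ ∧ ∀ v ∈ sp (ZZ D Y \ E) f ∪ E, IsConj (φ (L.t v)) (gl c E e f v)

theorem st2_sum [IsAlgClosure K Ω] [NeZero N] [NeZero (p ^ m)] {k₀ : ℕ} (hp : p.Prime)
    (hζ : IsPrimitiveRoot ζ p) (hz : Zn p (k₀ + 1) K) (D : RD0 K p ζ)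
    (L : LDs D Ω) (Q : DP K Ω) (Fr : FR L)
    (I : ((Gal(Ω/K) → Gal(Ω/K) → Gal(Ω/K) → ZMod (p ^ m)) ×
      (Pl K → Gal(Ω/K) → Gal(Ω/K) → ZMod (p ^ m))) →+ AddCircle (1 : ℝ))
    {P : Type} [Group P] [Fintype P] (hP : ∀ x : P, x ^ p ^ k₀ = 1) (c : CL p N P) {Qg : Type}
    [Group Qg] (rP : P →* Qg) (φ₁ : Gal(Ω/K) →* P) (wt : (Gal(Ω/K) →* Qg) → ℂ)
    (E : Finset (Pl K)) (e : Pl K → P) (hE : ∀ v ∈ E, v ∉ D.S0) (M : ℕ) (T₀ Y : ℝ) :
    SS c (BB2 L Q Fr I rP rP wt φ₁ (MonoidHom.id P) 0 0) D E e M T₀ Y =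
      ((Af D Q rP φ₁ φ₁).card : ℂ) * ∑ x ∈ RP2 L Q c rP.ker φ₁ E e M T₀ Y, wt (rP.comp x.2) := by
  unfold SS RP2
  rw [Finset.sum_sigma, Finset.mul_sum]
  refine Finset.sum_congr rfl fun f hf => ?_
  obtain ⟨T, hT⟩ : ∃ T, T = sp (ZZ D Y \ E) f ∪ E := ⟨_, rfl⟩
  rw [← hT]
  have hS0 : ∀ v ∈ T, v ∉ D.S0 := by
    intro v hv
    rw [hT, Finset.mem_union] at hv
    rcases hv with hv | hv
    · rw [mem_sp, Finset.mem_sdiff, mem_ZZ] at hv
      exact hv.1.1.2.1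
    · exact hE v hv
  have hJ : ∀ (τ : Pl K → Gal(Ω/K) →* P) (φ : Gal(Ω/K) →* P),
      JR D Q I (0 : P → P → ZMod (p ^ m)) (0 : P → P → P → ZMod (p ^ m)) τ φ = 0 := by
    intro τ φ
    unfold JR
    have h1 : ((pl3 (0 : P → P → P → ZMod (p ^ m)) φ,
        rs D Q fun v => pl2 (0 : P → P → ZMod (p ^ m)) (τ v)) :
        (Gal(Ω/K) → Gal(Ω/K) → Gal(Ω/K) → ZMod (p ^ m)) ×
          (Pl K → Gal(Ω/K) → Gal(Ω/K) → ZMod (p ^ m))) = 0 := by
      refine Prod.ext ?_ ?_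
      · rfl
      · funext v σ ρ
        show rs D Q (fun v => pl2 (0 : P → P → ZMod (p ^ m)) (τ v)) v σ ρ = 0
        unfold rs
        split_ifs
        · rfl
        · rfl
    rw [h1, map_zero]
  have hprod : ∀ φ : Gal(Ω/K) →* P, H38.ML.FT φ →
      ∏ v ∈ T, Vg (MonoidHom.id P) (0 : P → P → ZMod (p ^ m)) (gl c E e f v) (φ (L.t v))
        (φ (Fr.F v)) = if ∀ v ∈ T, IsConj (φ (L.t v)) (gl c E e f v) then 1 else 0 := by
    intro φ hφ
    have hv : ∀ v ∈ T, Vg (MonoidHom.id P) (0 : P → P → ZMod (p ^ m))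
        (gl c E e f v) (φ (L.t v)) (φ (Fr.F v)) =
        if IsConj (φ (L.t v)) (gl c E e f v) then 1 else 0 := by
      intro v hv
      rw [vg_id0]
      by_cases h : IsConj (φ (L.t v)) (gl c E e f v)
      · rw [if_pos h, if_pos h]
        unfold WC
        rw [if_pos]
        have h3 : L.t v = (L.ld v (hS0 v hv)).t := dif_pos (hS0 v hv)
        rw [h3]
        exact (comk hp hζ hz (fun h => hS0 v hv (D.above v h)) (D.pi_self v (hS0 v hv))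
          (L.ld v (hS0 v hv)) (Fr.fr v (hS0 v hv)) φ hφ
          fun τ _ => by rw [pow_succ, pow_mul, hP, one_pow]).symm
      · rw [if_neg h, if_neg h]
    rw [Finset.prod_congr rfl hv]
    by_cases hall : ∀ v ∈ T, IsConj (φ (L.t v)) (gl c E e f v)
    · rw [if_pos hall, Finset.prod_congr rfl fun v hv => if_pos (hall v hv),
        Finset.prod_const_one]
    · rw [if_neg hall]
      push Not at hall
      obtain ⟨v, hv1, hv2⟩ := hall
      exact Finset.prod_eq_zero hv1 (if_neg hv2)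
  have hB : ∀ a : {v // v ∈ D.S0} → rP.ker,
      B1 L Q Fr I rP wt (cjf D rP φ₁ a) (MonoidHom.id P) (0 : P → P → ZMod (p ^ m))
        (0 : P → P → P → ZMod (p ^ m)) T (gl c E e f) =
      ∑ φ ∈ HS2 L P T, if (∀ v ∈ D.S0, ∀ σ ∈ dec (K := K) (Q.P v),
          φ σ = cjf D rP φ₁ a v σ) then (if ∀ v ∈ T, IsConj (φ (L.t v)) (gl c E e f v) then
            wt (rP.comp φ) else 0) else 0 := by
    intro a
    unfold B1
    have hX : XS2 L Q (fun v => (MonoidHom.id P).comp (cjf D rP φ₁ a v)) T =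
        (HS2 L P T).filter fun φ => ∀ v ∈ D.S0, ∀ σ ∈ dec (K := K) (Q.P v),
          φ σ = cjf D rP φ₁ a v σ := by
      ext φ
      rw [Finset.mem_filter, mem_xs2 hp hζ L Q hP, mem_hs2 hp hζ L hP]
      rfl
    rw [hX, Finset.sum_filter]
    refine Finset.sum_congr rfl fun φ hφ => ?_
    rw [mem_hs2 hp hζ L hP] at hφ
    split_ifs with h1 h2
    · rw [hJ, AddChar.map_zero_eq_one, one_mul, hprod φ hφ.1, if_pos h2, mul_one]
    · rw [hJ, AddChar.map_zero_eq_one, one_mul, hprod φ hφ.1, if_neg h2, mul_zero]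
    · rfl
  unfold BB2
  rw [Finset.sum_congr rfl fun a _ => hB a, Finset.sum_comm, Finset.sum_filter, Finset.mul_sum]
  refine Finset.sum_congr rfl fun φ hφ => ?_
  have h1 : ∀ x : ℂ, ∑ a : {v // v ∈ D.S0} → rP.ker,
      (if (∀ v ∈ D.S0, ∀ σ ∈ dec (K := K) (Q.P v), φ σ = cjf D rP φ₁ a v σ) then x else 0) =
      ((Af D Q rP φ₁ φ).card : ℂ) * x := by
    intro x
    rw [← Finset.sum_filter, Finset.sum_const, nsmul_eq_mul]
    rfl
  rw [h1, af_card]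
  by_cases h2 : TqT D.S0 Q rP.ker φ φ₁
  · rw [if_pos h2]
    by_cases h3 : ∀ v ∈ T, IsConj (φ (L.t v)) (gl c E e f v)
    · rw [if_pos h3, if_pos ⟨h2, h3⟩]
    · rw [if_neg h3, if_neg fun h => h3 h.2]
  · have h3 : ¬ (TqT D.S0 Q rP.ker φ φ₁ ∧ ∀ v ∈ T, IsConj (φ (L.t v)) (gl c E e f v)) :=
      fun h => h2 h.1
    rw [if_neg h2, if_neg h3, Nat.cast_zero, zero_mul, mul_zero]

theorem rp2_sub [IsAlgClosure K Ω] [NeZero N] {k₀ : ℕ} (hp : p.Prime)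
    (hζ : IsPrimitiveRoot ζ p) {D : RD0 K p ζ}
    (L : LDs D Ω) (Q : DP K Ω) {P : Type} [Group P] [Fintype P] (hP : ∀ x : P, x ^ p ^ k₀ = 1)
    (c : CL p N P) (T : Subgroup P) (φ₁ : Gal(Ω/K) →* P) (E : Finset (Pl K)) (e : Pl K → P)
    (M : ℕ) (T₀ Y : ℝ) (f : Pl K → Option (Fin N)) (φ : Gal(Ω/K) →* P)
    (h : (⟨f, φ⟩ : Σ _ : Pl K → Option (Fin N), (Gal(Ω/K) →* P)) ∈
      RP2 L Q c T φ₁ E e M T₀ Y) :
    φ ∈ SYF L Q c T φ₁ E e M T₀ Y ∧
      ∀ v i, f v = some i ↔ D.Gd v ∧ v ∉ E ∧ IsConj (φ (L.t v)) (c.g i) := by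
  unfold RP2 at h
  simp only [Finset.mem_sigma, Finset.mem_filter, mem_hs2 hp hζ L hP] at h
  obtain ⟨hf, hH, hT, hcl⟩ := h
  unfold H86.AP.RC at hf
  rw [Finset.mem_filter, mem_cf] at hf
  obtain ⟨hf0, hR, hnr⟩ := hf
  have hsp : ∀ v, v ∈ sp (ZZ D Y \ E) f ↔ f v ≠ none := by
    intro v
    rw [mem_sp]
    refine ⟨fun h => h.2, fun h => ⟨?_, h⟩⟩
    by_contra hv
    exact h (hf0 v hv)
  have hty : ∀ v i, f v = some i → D.Gd v ∧ v ∉ E ∧ IsConj (φ (L.t v)) (c.g i) := by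
    intro v i hi
    have hv : v ∈ sp (ZZ D Y \ E) f := by
      rw [hsp, hi]
      exact Option.some_ne_none i
    have hvZ := (mem_sp.1 hv).1
    rw [Finset.mem_sdiff, mem_ZZ] at hvZ
    have h1 := hcl v (Finset.mem_union_left _ hv)
    unfold gl cf at h1
    rw [if_neg hvZ.2, hi, Option.getD_some] at h1
    exact ⟨hvZ.1.2, hvZ.2, h1⟩
  have htriv : ∀ v, v ∉ D.S0 → v ∉ E → f v = none → φ (L.t v) = 1 := by
    intro v hv hvE hfv
    refine hH.2 v hv ?_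
    rw [Finset.mem_union, hsp, not_or, not_not]
    exact ⟨hfv, hvE⟩
  have hiff : ∀ v i, f v = some i ↔ D.Gd v ∧ v ∉ E ∧ IsConj (φ (L.t v)) (c.g i) := by
    intro v i
    refine ⟨hty v i, fun h => ?_⟩
    cases hfv : f v with
    | none =>
      exfalso
      have h1 := htriv v h.1.1 h.2.1 hfv
      have h2 := h.2.2
      rw [h1] at h2
      exact c.ne i (isConj_one_right.1 h2)
    | some j =>
      rw [c.uni j i ((hty v j hfv).2.2.symm.trans h.2.2)]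
  refine ⟨⟨hH.1, hT, ?_, ?_, ?_, ?_⟩, hiff⟩
  · intro v hv
    have h1 := hcl v (Finset.mem_union_right _ hv)
    unfold gl at h1
    rwa [if_pos hv] at h1
  · intro v hv hvE h1
    cases hfv : f v with
    | none => exact absurd (htriv v hv hvE hfv) h1
    | some i => exact ⟨(hty v i hfv).1, i, (hty v i hfv).2.2⟩
  · intro X hX
    have hsub : X ⊆ sp (ZZ D Y \ E) f := by
      intro v hv
      rw [hsp]
      intro hfv
      exact (hX v hv).2.2 (htriv v (hX v hv).1 (hX v hv).2.1 hfv)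
    exact (nr_mono hsub).trans hnr
  · intro j
    refine ⟨(pl (ZZ D Y \ E) f j).filter fun v => T₀ < (nm v : ℝ), hR j, fun v hv => ?_⟩
    rw [Finset.mem_filter, mem_pl] at hv
    obtain ⟨h1, h2, h3⟩ := hty v j hv.1.2
    exact ⟨h1, h2, hv.2, h3⟩

theorem rp2_sup [IsAlgClosure K Ω] [NeZero N] {k₀ : ℕ} (hp : p.Prime)
    (hζ : IsPrimitiveRoot ζ p) {D : RD0 K p ζ}
    (L : LDs D Ω) (Q : DP K Ω) {P : Type} [Group P] [Fintype P] (hP : ∀ x : P, x ^ p ^ k₀ = 1)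
    (c : CL p N P) (T : Subgroup P) (φ₁ : Gal(Ω/K) →* P)
    (E : Finset (Pl K)) (e : Pl K → P) (M : ℕ) (T₀ Y : ℝ) (φ : Gal(Ω/K) →* P)
    (h : φ ∈ SYF L Q c T φ₁ E e M T₀ Y) :
    ∃ f : Pl K → Option (Fin N),
      (⟨f, φ⟩ : Σ _ : Pl K → Option (Fin N), (Gal(Ω/K) →* P)) ∈ RP2 L Q c T φ₁ E e M T₀ Y := by
  obtain ⟨hft, hT, hEE, hG, hn, hR⟩ := h
  obtain ⟨f, hf⟩ : ∃ f : Pl K → Option (Fin N), f = fun v =>
      if h : ∃ i, D.Gd v ∧ v ∉ E ∧ IsConj (φ (L.t v)) (c.g i) then some h.choose else none :=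
    ⟨_, rfl⟩
  have hfi : ∀ v i, f v = some i ↔ D.Gd v ∧ v ∉ E ∧ IsConj (φ (L.t v)) (c.g i) := by
    intro v i
    rw [hf]
    dsimp only
    constructor
    · intro h
      by_cases hv : ∃ i, D.Gd v ∧ v ∉ E ∧ IsConj (φ (L.t v)) (c.g i)
      · rw [dif_pos hv] at h
        rw [← Option.some.inj h]
        exact hv.choose_spec
      · rw [dif_neg hv] at h
        exact absurd h.symm (Option.some_ne_none i)
    · intro h
      have hv : ∃ i, D.Gd v ∧ v ∉ E ∧ IsConj (φ (L.t v)) (c.g i) := ⟨i, h⟩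
      rw [dif_pos hv]
      congr 1
      exact c.uni _ _ (hv.choose_spec.2.2.symm.trans h.2.2)
  have hram : ∀ v i, f v = some i → v ∉ D.S0 ∧ v ∉ E ∧ φ (L.t v) ≠ 1 := by
    intro v i h
    rw [hfi] at h
    refine ⟨h.1.1, h.2.1, fun h1 => ?_⟩
    have h2 := h.2.2
    rw [h1] at h2
    exact c.ne i (isConj_one_right.1 h2)
  have hZ : ∀ v i, f v = some i → v ∈ ZZ D Y \ E := by
    intro v i h
    rw [Finset.mem_sdiff, mem_ZZ]
    refine ⟨⟨?_, ((hfi v i).1 h).1⟩, (hram v i h).2.1⟩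
    have h1 := hn {v} fun w hw => by
      rw [Finset.mem_singleton] at hw
      rw [hw]
      exact hram v i h
    unfold nr at h1
    rwa [Finset.prod_singleton] at h1
  have hsp : ∀ v, v ∈ sp (ZZ D Y \ E) f ↔ ∃ i, f v = some i := by
    intro v
    rw [mem_sp]
    constructor
    · rintro ⟨-, h⟩
      exact Option.ne_none_iff_exists'.1 h
    · rintro ⟨i, hi⟩
      refine ⟨hZ v i hi, ?_⟩
      rw [hi]
      exact Option.some_ne_none i
  refine ⟨f, ?_⟩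
  unfold RP2 H86.AP.RC
  simp only [Finset.mem_sigma, Finset.mem_filter, mem_hs2 hp hζ L hP, mem_cf]
  refine ⟨⟨fun v hv => ?_, fun j => ?_, ?_⟩, ⟨hft, fun v hv hv' => ?_⟩, hT,
    fun v hv => ?_⟩
  · cases hfv : f v with
    | none => rfl
    | some i => exact absurd (hZ v i hfv) hv
  · obtain ⟨X, h1, h2⟩ := hR j
    refine h1.trans (Finset.card_le_card fun v hv => ?_)
    obtain ⟨h3, h4, h5, h6⟩ := h2 v hv
    have h7 : f v = some j := (hfi v j).2 ⟨h3, h4, h6⟩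
    rw [Finset.mem_filter, mem_pl]
    exact ⟨⟨hZ v j h7, h7⟩, h5⟩
  · refine hn _ fun v hv => ?_
    obtain ⟨i, hi⟩ := (hsp v).1 hv
    exact hram v i hi
  · rw [Finset.mem_union, not_or] at hv'
    by_contra h1
    obtain ⟨hg, j, hj⟩ := hG v hv hv'.2 h1
    exact hv'.1 ((hsp v).2 ⟨j, (hfi v j).2 ⟨hg, hv'.2, hj⟩⟩)
  · unfold gl
    by_cases hvE : v ∈ E
    · rw [if_pos hvE]
      exact hEE v hvE
    · rw [if_neg hvE]
      rw [Finset.mem_union] at hv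
      obtain ⟨i, hi⟩ := (hsp v).1 (hv.resolve_right hvE)
      unfold cf
      rw [hi, Option.getD_some]
      exact ((hfi v i).1 hi).2.2

/-- the beginning of AP2 -/
theorem start2 [IsAlgClosure K Ω] [NeZero N] [NeZero (p ^ m)] {k₀ : ℕ} (hp : p.Prime)
    (hM : MOne p K) (hζ : IsPrimitiveRoot ζ p) (hz : Zn p (k₀ + 1) K) (D : RD0 K p ζ)
    (L : LDs D Ω) (Q : DP K Ω) (Fr : FR L)
    (I : ((Gal(Ω/K) → Gal(Ω/K) → Gal(Ω/K) → ZMod (p ^ m)) ×
      (Pl K → Gal(Ω/K) → Gal(Ω/K) → ZMod (p ^ m))) →+ AddCircle (1 : ℝ))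
    {P : Type} [Group P] [Fintype P] (hP : ∀ x : P, x ^ p ^ k₀ = 1) (c : CL p N P) {Qg : Type}
    [Group Qg] (rP : P →* Qg) (hcT : ∀ i, rP (c.g i) = 1) (φ₁ : Gal(Ω/K) →* P) :
    ∃ κ : ℕ, 0 < κ ∧ ∀ (wt : (Gal(Ω/K) →* Qg) → ℂ)
      (_ : ∀ ψ, wt ψ ≠ 0 → Function.Surjective ψ) (E : Finset (Pl K)) (e : Pl K → P),
      (∀ v ∈ E, v ∉ D.S0) → ∀ (M : ℕ) (T₀ Y : ℝ),
      ∃ hf : (SYF L Q c rP.ker φ₁ E e M T₀ Y).Finite,
        SS c (BB2 L Q Fr I rP rP wt φ₁ (MonoidHom.id P) 0 0) D E e M T₀ Y =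
          (κ : ℂ) * ∑ φ ∈ hf.toFinset, wt (rP.comp φ) := by
  refine ⟨(Af D Q rP φ₁ φ₁).card, af_pos Q rP φ₁, fun wt _ E e hE M T₀ Y => ?_⟩
  obtain ⟨R, hR⟩ : ∃ R, R = RP2 L Q c rP.ker φ₁ E e M T₀ Y := ⟨_, rfl⟩
  have himg : SYF L Q c rP.ker φ₁ E e M T₀ Y =
      (fun s : (Σ _ : Pl K → Option (Fin N), (Gal(Ω/K) →* P)) =>
      s.2) '' (R : Set (Σ _ : Pl K → Option (Fin N), (Gal(Ω/K) →* P))) := by
    ext φ
    constructor
    · intro h
      obtain ⟨f, hf⟩ := rp2_sup hp hζ L Q hP c rP.ker φ₁ E e M T₀ Y φ h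
      exact ⟨⟨f, φ⟩, by rw [hR]; exact Finset.mem_coe.2 hf, rfl⟩
    · rintro ⟨⟨f, φ'⟩, hf, rfl⟩
      rw [hR] at hf
      exact (rp2_sub hp hζ L Q hP c rP.ker φ₁ E e M T₀ Y f φ' (Finset.mem_coe.1 hf)).1
  have hinj : Set.InjOn (fun s : (Σ _ : Pl K → Option (Fin N), (Gal(Ω/K) →* P)) => s.2)
      (R : Set (Σ _ : Pl K → Option (Fin N), (Gal(Ω/K) →* P))) := by
    rintro ⟨f, φ⟩ hf ⟨f', φ'⟩ hf' h
    dsimp only at h
    subst h
    rw [hR] at hf hf'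
    have h1 := (rp2_sub hp hζ L Q hP c rP.ker φ₁ E e M T₀ Y f φ (Finset.mem_coe.1 hf)).2
    have h2 := (rp2_sub hp hζ L Q hP c rP.ker φ₁ E e M T₀ Y f' φ (Finset.mem_coe.1 hf')).2
    have h3 : f = f' := by
      funext v
      cases hfv : f v with
      | some i => exact ((h2 v i).2 ((h1 v i).1 hfv)).symm
      | none =>
        cases hfv' : f' v with
        | none => rfl
        | some i =>
          have := (h1 v i).2 ((h2 v i).1 hfv')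
          rw [hfv] at this
          exact this
    rw [h3]
  have hfin : (SYF L Q c rP.ker φ₁ E e M T₀ Y).Finite := by
    rw [himg]
    exact (Finset.finite_toSet _).image _
  refine ⟨hfin, ?_⟩
  rw [st2_sum hp hζ hz D L Q Fr I hP c rP φ₁ wt E e hE M T₀ Y, ← hR]
  congr 1
  have h1 : hfin.toFinset = R.image (fun s => s.2) := by
    ext φ
    rw [Set.Finite.mem_toFinset, himg, Finset.mem_image]
    rfl
  rw [h1, Finset.sum_image hinj]

end H55.E2
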