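import Pool.Agent.H77.PT.Fdc
import Pool.Agent.H57.SL.Diu
import Pool.Agent.H48.MF.Ing
import Pool.Agent.H77.WE.Defs

/-!
# H55-E2-FXC: fixed points of Frobenius and the primes of degree one of the field `MF ρ H`

`ρ : Γ → G` of finite type and onto, `H ≤ G`, `v ∉ S0` with the inertia group in the kernel of `ρ`: `fx H (ρ (F v))` is the number of the primes `w` of `MF ρ H` over `v` with `nm w = nm v`.
-/

set_option autoImplicit false

open scoped NumberField Pointwise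
open IsDedekindDomain NumberField
open scoped Classical

noncomputable section

namespace H55.E2

open H63.MA H38.BB H38.BG H57.PC H51.CUB H77.PC3 H77.PT H77.WE

variable {K : Type} [Field K] [NumberField K] {p : ℕ} {ζ : K} {Ω : Type}
  [Field Ω] [Algebra K Ω] [IsAlgClosure K Ω] {G : Type} [Group G]

/-- the inertia groups are in the kernel -/
theorem unz_inr (hp : p.Prime) (hζ : IsPrimitiveRoot ζ p) {D : RD0 K p ζ} (L : LDs D Ω)
    [Finite G] (hG : IsPGroup p G) (φ : Gal(Ω/K) →* G) (E : Finset (Pl K)) (h : Unz L E φ) :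
    ∀ v, v ∉ D.S0 → v ∉ E → ∀ τ ∈ inr L v, φ τ = 1 := by
  intro v hv hE
  exact (H48.MF.ing_inr hp hζ L hv φ h.1 fun τ _ => hG (φ τ)).2.2 (h.2 v hv hE)

omit [IsAlgClosure K Ω] in
/-- a choice of primes over the primes of `K` -/
theorem dp_exists : Nonempty (DP K Ω) := by
  have h : ∀ v : Pl K, ∃ P : Ideal (𝓞 Ω), P.IsPrime ∧ P.under (𝓞 K) = v.asIdeal := by
    intro v
    have hint : Algebra.IsIntegral (𝓞 K) (𝓞 Ω) := ⟨fun y => by
      have h1 : IsIntegral ℤ (y : Ω) := y.2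
      have h2 : IsIntegral ℤ y := by
        have h3 : IsIntegral ℤ (algebraMap (𝓞 Ω) Ω y) := h1
        exact (isIntegral_algebraMap_iff (FaithfulSMul.algebraMap_injective (𝓞 Ω) Ω)).1 h3
      exact h2.tower_top⟩
    have := v.isPrime
    have hinj : Function.Injective (algebraMap (𝓞 K) (𝓞 Ω)) := by
      intro x y hxy
      have h1 : algebraMap K Ω (x : K) = algebraMap K Ω (y : K) :=
        congrArg (fun z : 𝓞 Ω => (z : Ω)) hxy
      exact RingOfIntegers.ext ((algebraMap K Ω).injective h1)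
    obtain ⟨P', -, hP', hP'w⟩ := Ideal.exists_ideal_over_prime_of_isIntegral (S := 𝓞 Ω)
      v.asIdeal ⊥ (by
        rw [← RingHom.ker_eq_comap_bot, (RingHom.injective_iff_ker_eq_bot _).1 hinj]
        exact bot_le)
    exact ⟨P', hP', hP'w⟩
  exact ⟨⟨fun v => (h v).choose, fun v => (h v).choose_spec.1, fun v => (h v).choose_spec.2⟩⟩

omit [IsAlgClosure K Ω] in
/-- the choice of the primes of `L` -/
theorem dp_ld {D : RD0 K p ζ} (L : LDs D Ω) :
    ∃ Q : DP K Ω, ∀ v (hv : v ∉ D.S0), Q.P v = (L.ld v hv).P := by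
  obtain ⟨Q0⟩ := dp_exists (K := K) (Ω := Ω)
  refine ⟨⟨fun v => if hv : v ∉ D.S0 then (L.ld v hv).P else Q0.P v, fun v => ?_, fun v => ?_⟩,
    fun v hv => ?_⟩
  · by_cases hv : v ∉ D.S0
    · rw [dif_pos hv]
      exact (L.ld v hv).prime
    · rw [dif_neg hv]
      exact Q0.prime v
  · by_cases hv : v ∉ D.S0
    · rw [dif_pos hv]
      exact (L.ld v hv).under
    · rw [dif_neg hv]
      exact Q0.under v
  · show (if hv : v ∉ D.S0 then (L.ld v hv).P else Q0.P v) = _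
    rw [dif_pos hv]

omit [NumberField K] [IsAlgClosure K Ω] in
/-- the embeddings given by two elements -/
theorem ac_iff (E : IntermediateField K Ω) (τ τ' : Gal(Ω/K)) :
    H57.SL.ac τ E.val = H57.SL.ac τ' E.val ↔ τ⁻¹ * τ' ∈ E.fixingSubgroup := by
  rw [IntermediateField.mem_fixingSubgroup_iff]
  constructor
  · intro h x hx
    have h1 : τ x = τ' x := DFunLike.congr_fun h (⟨x, hx⟩ : E)
    rw [AlgEquiv.mul_apply, ← h1]
    exact τ.symm_apply_apply x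
  · intro h
    refine AlgHom.ext fun x => ?_
    have h1 := h x.1 x.2
    rw [AlgEquiv.mul_apply] at h1
    have h2 : τ (τ⁻¹ (τ' x.1)) = τ x.1 := congrArg τ h1
    have h3 : τ (τ⁻¹ (τ' x.1)) = τ' x.1 := τ.apply_symm_apply _
    rw [h3] at h2
    exact h2.symm

theorem mf_IT (ρ : Gal(Ω/K) →* G) (hρ : H38.ML.FT ρ) (H : Subgroup G) {D : RD0 K p ζ}
    (L : LDs D Ω) {v : Pl K} (hv : v ∉ D.S0) (h : ∀ τ ∈ inr L v, ρ τ = 1)
    [NumberField (MF ρ H)] : H57.SL.IT Ω (MF ρ H) v := by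
  intro P' hP' hPv' τ hτ ι
  obtain ⟨g, hg⟩ := H57.SL.dic_tr (K := K) (L.ld v hv).P P' (L.ld v hv).prime hP'
    ((L.ld v hv).under.trans hPv'.symm)
  have hmem : ∀ x : 𝓞 Ω, g • x ∈ P' ↔ x ∈ (L.ld v hv).P := by
    intro x
    rw [hg]
    exact Ideal.smul_mem_pointwise_smul_iff
  have h1 : g⁻¹ * τ * g ∈ (L.ld v hv).P.inertia Gal(Ω/K) := by
    intro x
    rw [Submodule.mem_toAddSubgroup, ← hmem, smul_sub, mul_assoc, mul_smul, smul_inv_smul,
      mul_smul]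
    exact hτ (g • x)
  have h2 : ρ (g⁻¹ * τ * g) = 1 := h _ (by rw [dup_inr L v hv]; exact h1)
  have h3 : ρ τ = 1 := by
    rw [map_mul, map_mul, map_inv, mul_assoc, inv_mul_eq_one] at h2
    have h4 : ρ τ * ρ g = 1 * ρ g := by rw [one_mul]; exact h2.symm
    exact mul_right_cancel h4
  obtain ⟨σ, hσ⟩ := H57.SL.emb_tr (MF ρ H) (MF ρ H).val ι
  rw [hσ, ← H57.SL.ac_mul]
  refine ((ac_iff (MF ρ H) σ (τ * σ)).2 ?_).symm
  rw [mf_fix ρ hρ H, Subgroup.mem_comap, map_mul, map_mul, map_inv, h3, one_mul, inv_mul_cancel]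
  exact H.one_mem

/-- the embeddings of `MF ρ H` and the cosets -/
theorem mf_cos (ρ : Gal(Ω/K) →* G) (hρ : H38.ML.FT ρ) (hs : Function.Surjective ρ)
    (H : Subgroup G) [NumberField (MF ρ H)] (σ : Gal(Ω/K)) :
    fx H (ρ σ) = ((H57.SL.fx (MF ρ H) σ).ncard : ℝ) := by
  have hch : ∀ ι : MF ρ H →ₐ[K] Ω, ∃ g : Gal(Ω/K), ι = H57.SL.ac g (MF ρ H).val :=
    fun ι => H57.SL.emb_tr (MF ρ H) (MF ρ H).val ι
  choose g hg using hch
  let j : (MF ρ H →ₐ[K] Ω) → G ⧸ H := fun ι => (QuotientGroup.mk (ρ (g ι)) : G ⧸ H)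
  have hj : ∀ τ : Gal(Ω/K), j (H57.SL.ac τ (MF ρ H).val) = QuotientGroup.mk (ρ τ) := by
    intro τ
    have h1 := (ac_iff (MF ρ H) _ _).1 (hg (H57.SL.ac τ (MF ρ H).val)).symm
    show (QuotientGroup.mk (ρ (g (H57.SL.ac τ (MF ρ H).val))) : G ⧸ H) = QuotientGroup.mk (ρ τ)
    rw [QuotientGroup.eq, ← map_inv, ← map_mul]
    rw [mf_fix ρ hρ H, Subgroup.mem_comap] at h1
    exact h1
  have hinj : Function.Injective j := by
    intro ι ι' h
    rw [hg ι, hg ι', ac_iff, mf_fix ρ hρ H, Subgroup.mem_comap, map_mul, map_inv]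
    exact QuotientGroup.eq.1 h
  have hsur : Function.Surjective j := by
    intro x
    obtain ⟨y, rfl⟩ := QuotientGroup.mk_surjective x
    obtain ⟨τ, rfl⟩ := hs y
    exact ⟨_, hj τ⟩
  have hfix : ∀ ι : MF ρ H →ₐ[K] Ω, ι ∈ H57.SL.fx (MF ρ H) σ ↔ j ι ∈ {x : G ⧸ H | ρ σ • x = x} := by
    intro ι
    show H57.SL.ac σ ι = ι ↔ ρ σ • j ι = j ι
    have h1 : j (H57.SL.ac σ ι) = ρ σ • j ι := by
      rw [hg ι, ← H57.SL.ac_mul, hj, hj, map_mul]
      rfl
    rw [← h1]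
    exact ⟨fun h => by rw [h], fun h => hinj h⟩
  have hpre : H57.SL.fx (MF ρ H) σ = j ⁻¹' {x : G ⧸ H | ρ σ • x = x} := Set.ext hfix
  rw [hpre, Set.ncard_preimage_of_injective_subset_range hinj (fun x _ => hsur x)]
  unfold fx
  rfl

theorem fx_cnt {D : RD0 K p ζ} (L : LDs D Ω) (Fr : FR L) (ρ : Gal(Ω/K) →* G)
    (hρ : H38.ML.FT ρ) (hs : Function.Surjective ρ) (H : Subgroup G) {v : Pl K}
    (hv : v ∉ D.S0) (h : ∀ τ ∈ inr L v, ρ τ = 1) [NumberField (MF ρ H)] :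
    fx H (ρ (Fr.F v)) = ({w : Pl (MF ρ H) | Over w v ∧ nm w = nm v}.ncard : ℝ) := by
  obtain ⟨Q, hQ⟩ := dp_ld (K := K) (Ω := Ω) L
  have h1 : ρ (Fr.F v) = ρ (H57.SL.fr Q v) := by
    have h2 : Fr.F v * (H57.SL.fr Q v)⁻¹ ∈ inr L v := by
      rw [dup_inr L v hv]
      intro x
      have h3 := Fr.fr v hv ((H57.SL.fr Q v)⁻¹ • x)
      have h4 := H57.SL.fr_spec Q v ((H57.SL.fr Q v)⁻¹ • x)
      rw [hQ v hv, smul_inv_smul] at h4
      have h5 := (L.ld v hv).P.sub_mem h3 h4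
      rw [sub_sub_sub_cancel_right, ← mul_smul] at h5
      exact h5
    have h3 := h _ h2
    rw [map_mul, map_inv, mul_inv_eq_one] at h3
    exact h3
  rw [h1, mf_cos ρ hρ hs H]
  have hb := H57.SL.dic_bij (MF ρ H) Q v (mf_IT ρ hρ H L hv h)
  rw [← hb.image_eq, hb.injOn.ncard_image]

end H55.E2
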