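import Pool.Agent.H55.E2.Rich
import Pool.Agent.H55.E2.Fxc
import Pool.Agent.H57.AN.Ifa
import Pool.Agent.H77.PT.Fdb
import Pool.Agent.H77.PT.Fxp
import Pool.Agent.H88.E2.Defs

/-!
# H55-E2-ANA: the analytic part of END2 (`E2Ub`, `E2Lim` of H88/E2/Defs)

`fx (S j) (φ (F v))` is the number of the primes of degree one over `v` of the field `MF φ (S j)` (`fx_lab`), so the sums are those of `AN3b`, `AN4` (H51/MM/An, proved in H57/AN/Ifa).
-/

set_option autoImplicit false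
set_option linter.dupNamespace false

open scoped NumberField
open NumberField IsDedekindDomain Filter Topology
open scoped Classical

noncomputable section

namespace H55.E2

open H63.MA H38.BB H38.BG H57.PC H51.CUB H77.PC3 H77.PT H77.WE H36.QA H86.AP H35.CF H57.AN
  H51.MM H57.TLS

variable {K : Type} [Field K] [NumberField K] {p : ℕ} {ζ : K} {Ω : Type}
  [Field Ω] [Algebra K Ω] [IsAlgClosure K Ω] {G : Type} [Group G]

omit [IsAlgClosure K Ω] in
theorem lab_set {E : Type} [Field E] [NumberField E] [Algebra K E] (v : Pl K) :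
    {w : Pl E | Over w v ∧ (nm w).Prime} = if (nm v).Prime then
      {w : Pl E | Over w v ∧ nm w = nm v} else ∅ := by
  have h1 : ∀ w : Pl E, Over w v → (nm w).Prime → nm w = nm v := by
    intro w hw hp
    obtain ⟨f, hf, he⟩ := nm_over hw
    rw [he] at hp
    have h1 : f = 1 := Nat.Prime.eq_one_of_pow hp
    rw [he, h1, pow_one]
  split_ifs with h
  · ext w
    exact ⟨fun hw => ⟨hw.1, h1 w hw.1 hw.2⟩, fun hw => ⟨hw.1, by
      have := hw.2
      show (nm w).Prime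
      rw [this]
      exact h⟩⟩
  · rw [Set.eq_empty_iff_forall_notMem]
    rintro w ⟨hw, hp⟩
    exact h (h1 w hw hp ▸ hp)

theorem fx_lab {D : RD0 K p ζ} (L : LDs D Ω) (Fr : FR L) (ρ : Gal(Ω/K) →* G)
    (hρ : H38.ML.FT ρ) (hs : Function.Surjective ρ) (H : Subgroup G) {v : Pl K}
    (hv : D.Gd v) (h : ∀ τ ∈ inr L v, ρ τ = 1) [NumberField (MF ρ H)] :
    fx H (ρ (Fr.F v)) = ({w : Pl (MF ρ H) | Over w v ∧ (nm w).Prime}.ncard : ℝ) := by
  rw [lab_set, if_pos hv.2]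
  exact fx_cnt L Fr ρ hρ hs H hv.1 h

variable {N : ℕ} [NeZero N]

omit [NeZero N] in
theorem lbn_wt {D : RD0 K p ζ} (L : LDs D Ω) (Fr : FR L) (S : Fin N → Subgroup G)
    (φ : Gal(Ω/K) →* G) (hφ : H38.ML.FT φ) (hs : Function.Surjective φ) (E : Finset (Pl K))
    (hE : ∀ v, v ∉ D.S0 → v ∉ E → ∀ τ ∈ inr L v, φ τ = 1)
    [∀ j, NumberField (MF φ (S j))] (v : Pl K) :
    (lbn K (fun j => MF φ (S j)) Finset.univ (D.S0 ∪ E) v : ℝ) =
      wt D E (fun j v => fx (S j) (φ (Fr.F v))) v := by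
  unfold lbn wt
  by_cases h1 : v ∈ D.S0 ∪ E
  · rw [if_pos h1, if_neg, Nat.cast_zero]
    rintro ⟨h2, h3⟩
    rw [Finset.mem_union] at h1
    exact h1.elim h2.1 h3
  · rw [if_neg h1]
    rw [Finset.mem_union, not_or] at h1
    by_cases h2 : (nm v).Prime
    · rw [if_pos ⟨⟨h1.1, h2⟩, h1.2⟩, Nat.cast_sum]
      refine Finset.sum_congr rfl fun j _ => ?_
      exact (fx_lab L Fr φ hφ hs (S j) ⟨h1.1, h2⟩ (hE v h1.1 h1.2)).symm
    · rw [if_neg fun h => h2 h.1.2]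
      have h3 : ∀ j ∈ (Finset.univ : Finset (Fin N)),
          {w : Pl (MF φ (S j)) | Over w v ∧ (nm w).Prime}.ncard = 0 := by
        intro j _
        rw [lab_set, if_neg h2, Set.ncard_empty]
      rw [Finset.sum_congr rfl h3, Finset.sum_const_zero, Nat.cast_zero]

theorem mf_nf (φ : Gal(Ω/K) →* G) (hφ : H38.ML.FT φ) (S : Fin N → Subgroup G) :
    ∀ j, NumberField (MF φ (S j)) := by
  intro j
  have := mf_fin φ hφ (S j)
  exact NumberField.of_module_finite K (MF φ (S j))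

theorem ub_gen [Finite G] (hp : p.Prime) (hp2 : MOne p K) (hζ : IsPrimitiveRoot ζ p)
    (D : RD0 K p ζ) (L : LDs D Ω) (Fr : FR L) (hG : IsPGroup p G) (S : Fin N → Subgroup G) :
    ∃ (C : ℝ) (A : ℕ), 1 ≤ C ∧ ∀ φ : Gal(Ω/K) →* G, H38.ML.FT φ → Function.Surjective φ →
    ∀ E : Finset (Pl K), Unz L E φ → ∀ (M : ℕ) (T₀ Y : ℝ), 3 ≤ Y →
      wS D N M T₀ Y E (fun j v => H77.PT.fx (S j) (φ (Fr.F v))) ≤
        C * (1 + Real.log (nr E)) ^ A * (Y * Real.log Y ^ (N - 1)) := by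
  obtain ⟨d, hd⟩ : ∃ d : ℕ, d = ∑ j, (S j).index := ⟨_, rfl⟩
  have hdj : ∀ j, (S j).index ≤ d := fun j => by
    rw [hd]
    exact Finset.single_le_sum (f := fun j => (S j).index) (fun _ _ => Nat.zero_le _)
      (Finset.mem_univ j)
  obtain ⟨C, A, hC, hi⟩ := i3b K N d
  choose Cd hCd hdd using fun j => mf_dd hp D L (S j)
  obtain ⟨C', hC'⟩ : ∃ C' : ℝ, C' = ∑ j, Cd j := ⟨_, rfl⟩
  have hC'j : ∀ j, Cd j ≤ C' := fun j => by
    rw [hC']
    exact Finset.single_le_sum (f := Cd) (fun i _ => by linarith [hCd i]) (Finset.mem_univ j)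
  have hC'1 : 1 ≤ C' := (hCd 0).trans (hC'j 0)
  have hlC' : 0 ≤ Real.log C' := Real.log_nonneg hC'1
  refine ⟨C * (1 + Real.log C' + d) ^ A, A, ?_, ?_⟩
  · refine one_le_mul_of_one_le_of_one_le hC (one_le_pow₀ ?_)
    have : (0 : ℝ) ≤ d := Nat.cast_nonneg d
    linarith
  intro φ hφ hs E hU M T₀ Y hY
  have hE := unz_inr hp hζ L hG φ E hU
  have hnf := mf_nf φ hφ S
  have hnr : 1 ≤ nr E := one_le_nr E
  have hlE : 0 ≤ Real.log (nr E) := Real.log_nonneg hnr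
  have h1 : ∀ j, dd (MF φ (S j)) ≤ C' * nr E ^ d := by
    intro j
    refine (hdd j φ hφ hs E hE).trans ?_
    exact mul_le_mul (hC'j j) (pow_le_pow_right₀ hnr (hdj j)) (by positivity) (by linarith)
  have hD1 : 1 ≤ C' * nr E ^ d := one_le_mul_of_one_le_of_one_le hC'1 (one_le_pow₀ hnr)
  have h2 := hi (fun j => MF φ (S j)) (fun j => (mf_tc hp hp2 hζ φ hφ hs (S j)).1)
    (fun j => by
      show Module.finrank K (MF φ (S j)) ≤ d
      rw [mf_deg φ hφ hs (S j)]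
      exact hdj j) (C' * nr E ^ d) hD1 h1 (D.S0 ∪ E) Finset.univ
    ⟨0, Finset.mem_univ _⟩ Y hY
  rw [Finset.card_univ, Fintype.card_fin] at h2
  have h3 := ws_le D M T₀ Y E (fun j v => H77.PT.fx (S j) (φ (Fr.F v)))
    (fun j v => fx_nonneg _ _)
  refine h3.trans ?_
  have h4 : ∑ s ∈ AF K Y, ∏ v ∈ s, wt D E (fun j v => H77.PT.fx (S j) (φ (Fr.F v))) v =
      ∑ s ∈ AF K Y, ∏ v ∈ s,
        (lbn K (fun j => MF φ (S j)) Finset.univ (D.S0 ∪ E) v : ℝ) :=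
    Finset.sum_congr rfl fun s _ => Finset.prod_congr rfl fun v _ =>
      (lbn_wt L Fr S φ hφ hs E hE v).symm
  rw [h4]
  refine h2.trans ?_
  have hLY : 0 ≤ Real.log Y := Real.log_nonneg (by linarith)
  refine mul_le_mul_of_nonneg_right ?_ (by positivity)
  rw [mul_assoc, ← mul_pow]
  refine mul_le_mul_of_nonneg_left ?_ (by linarith)
  refine pow_le_pow_left₀ (by have := Real.log_nonneg hD1; linarith) ?_ A
  have hn0 : 0 < nr E := by linarith
  rw [Real.log_mul (by linarith) (by positivity), Real.log_pow]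
  have : (0 : ℝ) ≤ d := Nat.cast_nonneg d
  nlinarith [mul_nonneg hlC' hlE]

theorem lim_gen [Finite G] (hp : p.Prime) (hp2 : MOne p K) (hζ : IsPrimitiveRoot ζ p)
    (D : RD0 K p ζ) (L : LDs D Ω) (Fr : FR L) (hG : IsPGroup p G) (S : Fin N → Subgroup G)
    (φ : Gal(Ω/K) →* G) (hφ : H38.ML.FT φ) (hs : Function.Surjective φ) (hU : Unz L ∅ φ) :
    ∃ l : ℝ, 0 < l ∧ ∀ (M : ℕ) (ε : ℝ), 0 < ε → ε < 1 →
    Tendsto (fun Y : ℝ => wS D N M (Real.exp (Real.log Y ^ ε)) Y ∅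
      (fun j v => H77.PT.fx (S j) (φ (Fr.F v))) / (Y * Real.log Y ^ (N - 1))) atTop (𝓝 l) := by
  have hE := unz_inr hp hζ L hG φ ∅ hU
  have hnf := mf_nf φ hφ S
  obtain ⟨l, hl, hlim⟩ := i4 K N (fun j => MF φ (S j))
    (fun j => (mf_tc hp hp2 hζ φ hφ hs (S j)).1) D.S0 Finset.univ ⟨0, Finset.mem_univ _⟩
  rw [Finset.card_univ, Fintype.card_fin] at hlim
  have hw : ∀ v, (lbn K (fun j => MF φ (S j)) Finset.univ D.S0 v : ℝ) =
      wt D ∅ (fun j v => fx (S j) (φ (Fr.F v))) v := by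
    intro v
    have h1 := lbn_wt L Fr S φ hφ hs ∅ hE v
    rwa [Finset.union_empty] at h1
  have hlim' : Tendsto (fun Y : ℝ => (∑ s ∈ AF K Y, ∏ v ∈ s,
      wt D ∅ (fun j v => H77.PT.fx (S j) (φ (Fr.F v))) v) /
      (Y * Real.log Y ^ (N - 1))) atTop (𝓝 l) := by
    refine hlim.congr fun Y => ?_
    congr 1
    exact Finset.sum_congr rfl fun s _ => Finset.prod_congr rfl fun v _ => hw v
  have hz : ∀ j, ∃ C : ℝ, ∀ x : ℝ, 3 ≤ x →
      ∑ w ∈ PB (MF φ (S j)) x, (1 : ℝ) / nm w ≤ Real.log (Real.log x) + C := by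
    intro j
    obtain ⟨C, A, hC, h⟩ := zt ((S j).index * Module.finrank ℚ K)
      (Nat.mul_pos (Nat.pos_of_ne_zero Subgroup.index_ne_zero_of_finite) Module.finrank_pos)
    refine ⟨A * Real.log (1 + Real.log (dd (MF φ (S j)))) + C, fun x hx => ?_⟩
    have h1 := h (MF φ (S j)) (mf_tc hp hp2 hζ φ hφ hs (S j)) x hx
    linarith
  choose Cz hCz using hz
  obtain ⟨C, hCd⟩ : ∃ C : ℝ, C = ∑ j, |Cz j| := ⟨_, rfl⟩
  have hCj : ∀ j, Cz j ≤ C := fun j => by
    rw [hCd]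
    exact (le_abs_self _).trans (Finset.single_le_sum (f := fun j => |Cz j|)
      (fun i _ => abs_nonneg _) (Finset.mem_univ j))
  have hM : Mert D (fun j v => H77.PT.fx (S j) (φ (Fr.F v))) C := by
    intro j x hx
    have h1 := ub_P K (MF φ (S j)) x
    have h2 : ∑ v ∈ ZZ D x, H77.PT.fx (S j) (φ (Fr.F v)) / nm v ≤
        ∑ v ∈ PB K x, ((ubW K v : Finset (Pl (MF φ (S j)))).card : ℝ) / nm v := by
      have h3 : ∀ v ∈ ZZ D x, H77.PT.fx (S j) (φ (Fr.F v)) / nm v =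
          ((ubW K v : Finset (Pl (MF φ (S j)))).card : ℝ) / nm v := by
        intro v hv
        rw [mem_zz] at hv
        rw [fx_lab L Fr φ hφ hs (S j) hv.2 (hE v hv.2.1 (Finset.notMem_empty v)), ifa_ncard]
        rfl
      rw [Finset.sum_congr rfl h3]
      refine Finset.sum_le_sum_of_subset_of_nonneg (Finset.filter_subset _ _) fun v _ _ => ?_
      positivity
    have h3 := hCz j x hx
    have h4 := hCj j
    show ∑ v ∈ ZZ D x, H77.PT.fx (S j) (φ (Fr.F v)) / nm v ≤ _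
    linarith
  refine ⟨l, hl, fun M ε hε hε1 => ?_⟩
  exact rich_lim D (fun j v => H77.PT.fx (S j) (φ (Fr.F v))) (Nat.card G)
    (fun j v => ⟨fx_nonneg _ _, fx_le _ _⟩) C hM l hlim' M ε hε hε1

end H55.E2

namespace H55.E2

open H63.MA H38.ML H38.BB H38.BG H57.PC H77.PC3 H77.WE H86.AP H88.E2

variable {p N : ℕ} [NeZero N] {K : IntermediateField ℚ QBar} [NumberField K] {ζ : K}

theorem e2_ub (hp : p.Prime) (hp2 : MOne p K) (hζ : IsPrimitiveRoot ζ p) (D : RD0 K p ζ)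
    (L : LDs D QBar) (Fr : FR L) {R : Type} [Group R] [Finite R] (hR : IsPGroup p R)
    (S : Fin N → Subgroup R) : E2Ub D L Fr S :=
  ub_gen hp hp2 hζ D L Fr hR S

theorem e2_lim (hp : p.Prime) (hp2 : MOne p K) (hζ : IsPrimitiveRoot ζ p) (D : RD0 K p ζ)
    (L : LDs D QBar) (Fr : FR L) {R : Type} [Group R] [Finite R] (hR : IsPGroup p R)
    (S : Fin N → Subgroup R) (φ : Gal(QBar/K) →* R) (hφ : H38.ML.FT φ)
    (hs : Function.Surjective φ) (hU : Unz L ∅ φ) : E2Lim D L Fr S φ :=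
  lim_gen hp hp2 hζ D L Fr hR S φ hφ hs hU

end H55.E2
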