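import Pool.Agent.H57.AN.Ub
import Pool.Agent.H86.AP.Df
import Pool.Agent.H35.CF.Cnt

/-!
# H55-E2-CFG: weighted sums over configurations

`wS D N M T₀ Y E V`: the sum over the rich configurations outside `E` of the product of the weights `V i v`. `cf_af`: without the condition rich it is a sum over the sets of primes of norm at most `Y`. `few_le`: the
configurations with at most `M` large primes in the class `j` (weight `z ≤ 1` for each large prime of the class `j`).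
-/

set_option autoImplicit false
set_option linter.dupNamespace false

open scoped NumberField
open NumberField IsDedekindDomain Filter Topology
open scoped Classical

noncomputable section

namespace H55.E2

open H63.MA H86.AP H35.CF H57.AN

variable {K : Type} [Field K] [NumberField K] {p : ℕ} {ζ : K} {N : ℕ} [NeZero N]

/-- the sum over the rich configurations -/
def wS (D : RD0 K p ζ) (N : ℕ) [NeZero N] (M : ℕ) (T₀ Y : ℝ) (E : Finset (Pl K))
    (V : Fin N → Pl K → ℝ) : ℝ :=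
  ∑ f ∈ RC D N M T₀ Y E, ∏ v ∈ sp (ZZ D Y \ E) f, V (cf f v) v

/-- the weight of a prime -/
def wt (D : RD0 K p ζ) (E : Finset (Pl K)) (V : Fin N → Pl K → ℝ) (v : Pl K) : ℝ :=
  if D.Gd v ∧ v ∉ E then ∑ i, V i v else 0

theorem mem_zz {D : RD0 K p ζ} {Y : ℝ} {v : Pl K} : v ∈ ZZ D Y ↔ (nm v : ℝ) ≤ Y ∧ D.Gd v := by
  unfold ZZ
  rw [Finset.mem_filter, mem_PB]

theorem om_cf (Z : Finset (Pl K)) (V : Fin N → Pl K → ℝ) (f : Pl K → Option (Fin N)) :
    om Z (fun v i => V i v) f = ∏ v ∈ sp Z f, V (cf f v) v := by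
  rw [om_sp]
  refine Finset.prod_congr rfl fun v hv => ?_
  rw [mem_sp] at hv
  unfold cf
  cases h : f v with
  | none => exact absurd h hv.2
  | some x => rfl

theorem cf_af (D : RD0 K p ζ) (Y : ℝ) (E : Finset (Pl K)) (V : Fin N → Pl K → ℝ) :
    ∑ f ∈ (Cf (ZZ D Y \ E) (Fin N)).filter (fun f => nr (sp (ZZ D Y \ E) f) ≤ Y),
      ∏ v ∈ sp (ZZ D Y \ E) f, V (cf f v) v = ∑ s ∈ AF K Y, ∏ v ∈ s, wt D E V v := by
  have h1 := cf_prod (ZZ D Y \ E) (fun s => if nr s ≤ Y then (1 : ℝ) else 0)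
    (fun v (i : Fin N) => V i v)
  calc ∑ f ∈ (Cf (ZZ D Y \ E) (Fin N)).filter (fun f => nr (sp (ZZ D Y \ E) f) ≤ Y),
      ∏ v ∈ sp (ZZ D Y \ E) f, V (cf f v) v
      = ∑ f ∈ Cf (ZZ D Y \ E) (Fin N), (if nr (sp (ZZ D Y \ E) f) ≤ Y then (1 : ℝ) else 0) *
          om (ZZ D Y \ E) (fun v i => V i v) f := by
        rw [Finset.sum_filter]
        refine Finset.sum_congr rfl fun f _ => ?_
        rw [om_cf]
        split_ifs
        · rw [one_mul]
        · rw [zero_mul]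
    _ = ∑ s ∈ (ZZ D Y \ E).powerset, (if nr s ≤ Y then (1 : ℝ) else 0) *
          ∏ v ∈ s, ∑ i, V i v := h1
    _ = ∑ s ∈ (ZZ D Y \ E).powerset.filter (fun s => nr s ≤ Y), ∏ v ∈ s, wt D E V v := by
        rw [Finset.sum_filter]
        refine Finset.sum_congr rfl fun s hs => ?_
        rw [Finset.mem_powerset] at hs
        split_ifs
        · rw [one_mul]
          refine Finset.prod_congr rfl fun v hv => ?_
          have h2 := Finset.mem_sdiff.1 (hs hv)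
          unfold wt
          rw [if_pos ⟨(mem_zz.1 h2.1).2, h2.2⟩]
        · rw [zero_mul]
    _ = ∑ s ∈ AF K Y, ∏ v ∈ s, wt D E V v := by
        refine Finset.sum_subset ?_ ?_
        · intro s hs
          rw [mem_AF]
          exact (Finset.mem_filter.1 hs).2
        · intro s hs hs'
          rw [mem_AF] at hs
          have h2 : ∃ v ∈ s, ¬ (D.Gd v ∧ v ∉ E) := by
            by_contra h
            push Not at h
            apply hs'
            rw [Finset.mem_filter, Finset.mem_powerset]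
            refine ⟨fun v hv => ?_, hs⟩
            rw [Finset.mem_sdiff, mem_zz]
            exact ⟨⟨(ub_nm_le hv).trans hs, (h v hv).1⟩, (h v hv).2⟩
          obtain ⟨v, hv, hv'⟩ := h2
          refine Finset.prod_eq_zero hv ?_
          unfold wt
          rw [if_neg hv']

theorem wt_nonneg (D : RD0 K p ζ) (E : Finset (Pl K)) (V : Fin N → Pl K → ℝ)
    (hV : ∀ i v, 0 ≤ V i v) (v : Pl K) : 0 ≤ wt D E V v := by
  unfold wt
  split_ifs
  · exact Finset.sum_nonneg fun i _ => hV i v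
  · exact le_rfl

theorem ws_nonneg (D : RD0 K p ζ) (M : ℕ) (T₀ Y : ℝ) (E : Finset (Pl K))
    (V : Fin N → Pl K → ℝ) (hV : ∀ i v, 0 ≤ V i v) : 0 ≤ wS D N M T₀ Y E V :=
  Finset.sum_nonneg fun f _ => Finset.prod_nonneg fun v _ => hV _ _

theorem ws_le (D : RD0 K p ζ) (M : ℕ) (T₀ Y : ℝ) (E : Finset (Pl K)) (V : Fin N → Pl K → ℝ)
    (hV : ∀ i v, 0 ≤ V i v) : wS D N M T₀ Y E V ≤ ∑ s ∈ AF K Y, ∏ v ∈ s, wt D E V v := by
  rw [← cf_af]
  unfold wS
  refine Finset.sum_le_sum_of_subset_of_nonneg ?_ fun f _ _ => Finset.prod_nonneg fun v _ => hV _ _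
  intro f hf
  rw [H86.AP.RC, Finset.mem_filter] at hf
  rw [Finset.mem_filter]
  exact ⟨hf.1, hf.2.2⟩

/-- the configurations with at most `M` large primes in the class `j` -/
def Few (D : RD0 K p ζ) (N : ℕ) (j : Fin N) (M : ℕ) (T₀ Y : ℝ) :
    Finset (Pl K → Option (Fin N)) :=
  (Cf (ZZ D Y \ ∅) (Fin N)).filter fun f => nr (sp (ZZ D Y \ ∅) f) ≤ Y ∧
    ((pl (ZZ D Y \ ∅) f j).filter fun v => T₀ < (nm v : ℝ)).card ≤ M

/-- the weights with `z` at the large primes of the class `j` -/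
def Vz (j : Fin N) (z T₀ : ℝ) (V : Fin N → Pl K → ℝ) (i : Fin N) (v : Pl K) : ℝ :=
  V i v * (if i = j ∧ T₀ < (nm v : ℝ) then z else 1)

theorem few_le (D : RD0 K p ζ) (j : Fin N) (M : ℕ) (T₀ Y z : ℝ) (hz0 : 0 < z) (hz1 : z ≤ 1)
    (V : Fin N → Pl K → ℝ) (hV : ∀ i v, 0 ≤ V i v) :
    ∑ f ∈ Few D N j M T₀ Y, ∏ v ∈ sp (ZZ D Y \ ∅) f, V (cf f v) v ≤
      (z ^ M)⁻¹ * ∑ s ∈ AF K Y, ∏ v ∈ s, wt D ∅ (Vz j z T₀ V) v := by
  rw [← cf_af, Finset.mul_sum]
  have hsub : Few D N j M T₀ Y ⊆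
      (Cf (ZZ D Y \ ∅) (Fin N)).filter (fun f => nr (sp (ZZ D Y \ ∅) f) ≤ Y) := by
    intro f hf
    rw [Few, Finset.mem_filter] at hf
    rw [Finset.mem_filter]
    exact ⟨hf.1, hf.2.1⟩
  have hVz : ∀ i v, 0 ≤ Vz j z T₀ V i v := by
    intro i v
    unfold Vz
    refine mul_nonneg (hV i v) ?_
    split_ifs
    · exact hz0.le
    · exact zero_le_one
  refine le_trans (Finset.sum_le_sum fun f hf => ?_)
    (Finset.sum_le_sum_of_subset_of_nonneg hsub fun f _ _ =>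
      mul_nonneg (inv_nonneg.2 (pow_nonneg hz0.le _)) (Finset.prod_nonneg fun v _ => hVz _ _))
  rw [Few, Finset.mem_filter] at hf
  have h1 : ∏ v ∈ sp (ZZ D Y \ ∅) f, Vz j z T₀ V (cf f v) v =
      (∏ v ∈ sp (ZZ D Y \ ∅) f, V (cf f v) v) *
        z ^ ((pl (ZZ D Y \ ∅) f j).filter fun v => T₀ < (nm v : ℝ)).card := by
    unfold Vz
    rw [Finset.prod_mul_distrib]
    congr 1
    rw [Finset.prod_ite, Finset.prod_const, Finset.prod_const_one, mul_one]
    congr 2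
    ext v
    rw [Finset.mem_filter, Finset.mem_filter, mem_sp, mem_pl]
    unfold cf
    constructor
    · rintro ⟨⟨h1, h2⟩, h3, h4⟩
      obtain ⟨i, hi⟩ := Option.ne_none_iff_exists'.1 h2
      rw [hi, Option.getD_some] at h3
      rw [h3] at hi
      exact ⟨⟨h1, hi⟩, h4⟩
    · rintro ⟨⟨h1, h2⟩, h3⟩
      rw [h2]
      exact ⟨⟨h1, Option.some_ne_none j⟩, rfl, h3⟩
  rw [h1]
  have h2 : z ^ M ≤ z ^ ((pl (ZZ D Y \ ∅) f j).filter fun v => T₀ < (nm v : ℝ)).card :=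
    pow_le_pow_of_le_one hz0.le hz1 hf.2.2
  have h3 : 0 < z ^ M := pow_pos hz0 _
  have h4 : 0 ≤ ∏ v ∈ sp (ZZ D Y \ ∅) f, V (cf f v) v := Finset.prod_nonneg fun v _ => hV _ _
  have h5 : 1 ≤ (z ^ M)⁻¹ * z ^ ((pl (ZZ D Y \ ∅) f j).filter fun v => T₀ < (nm v : ℝ)).card := by
    rw [inv_mul_eq_div, one_le_div h3]
    exact h2
  calc ∏ v ∈ sp (ZZ D Y \ ∅) f, V (cf f v) v
      = (∏ v ∈ sp (ZZ D Y \ ∅) f, V (cf f v) v) * 1 := (mul_one _).symm
    _ ≤ (∏ v ∈ sp (ZZ D Y \ ∅) f, V (cf f v) v) *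
        ((z ^ M)⁻¹ * z ^ ((pl (ZZ D Y \ ∅) f j).filter fun v => T₀ < (nm v : ℝ)).card) :=
        mul_le_mul_of_nonneg_left h5 h4
    _ = _ := by ring

theorem bi_le {ι α : Type} [Fintype ι] [DecidableEq α] (S : ι → Finset α) (F : α → ℝ)
    (hF : ∀ x, 0 ≤ F x) : ∑ x ∈ Finset.univ.biUnion S, F x ≤ ∑ i, ∑ x ∈ S i, F x := by
  have h1 : ∀ x ∈ Finset.univ.biUnion S, F x ≤ ∑ i, if x ∈ S i then F x else 0 := by
    intro x hx
    obtain ⟨i, -, hi⟩ := Finset.mem_biUnion.1 hx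
    have h2 : (if x ∈ S i then F x else 0) ≤ ∑ i, if x ∈ S i then F x else 0 :=
      Finset.single_le_sum (f := fun i => if x ∈ S i then F x else 0) (fun i _ => by
        beta_reduce
        split_ifs
        · exact hF x
        · exact le_rfl) (Finset.mem_univ i)
    rwa [if_pos hi] at h2
  refine (Finset.sum_le_sum h1).trans ?_
  rw [Finset.sum_comm]
  refine Finset.sum_le_sum fun i _ => ?_
  rw [← Finset.sum_filter]
  refine Finset.sum_le_sum_of_subset_of_nonneg ?_ fun x _ _ => hF x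
  intro x hx
  exact (Finset.mem_filter.1 hx).2

/-- the sum over the rich configurations from below -/
theorem ws_ge (D : RD0 K p ζ) (M : ℕ) (T₀ Y : ℝ) (V : Fin N → Pl K → ℝ)
    (hV : ∀ i v, 0 ≤ V i v) :
    ∑ s ∈ AF K Y, ∏ v ∈ s, wt D ∅ V v -
      ∑ j, ∑ f ∈ Few D N j M T₀ Y, ∏ v ∈ sp (ZZ D Y \ ∅) f, V (cf f v) v ≤
      wS D N M T₀ Y ∅ V := by
  have hF : ∀ f : Pl K → Option (Fin N), 0 ≤ ∏ v ∈ sp (ZZ D Y \ ∅) f, V (cf f v) v :=
    fun f => Finset.prod_nonneg fun v _ => hV _ _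
  obtain ⟨A, hA⟩ : ∃ A, A = (Cf (ZZ D Y \ ∅) (Fin N)).filter
    (fun f => nr (sp (ZZ D Y \ ∅) f) ≤ Y) := ⟨_, rfl⟩
  have hsum : ∑ f ∈ A.filter (fun f => Rich M T₀ (ZZ D Y \ ∅) f),
        ∏ v ∈ sp (ZZ D Y \ ∅) f, V (cf f v) v +
      ∑ f ∈ A.filter (fun f => ¬ Rich M T₀ (ZZ D Y \ ∅) f),
        ∏ v ∈ sp (ZZ D Y \ ∅) f, V (cf f v) v =
      ∑ s ∈ AF K Y, ∏ v ∈ s, wt D ∅ V v := by
    rw [Finset.sum_filter_add_sum_filter_not, hA, cf_af]
  have hR : A.filter (fun f => Rich M T₀ (ZZ D Y \ ∅) f) = RC D N M T₀ Y ∅ := by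
    rw [hA]
    ext f
    rw [H86.AP.RC, Finset.mem_filter, Finset.mem_filter, Finset.mem_filter]
    tauto
  have hno : ∑ f ∈ A.filter (fun f => ¬ Rich M T₀ (ZZ D Y \ ∅) f),
        ∏ v ∈ sp (ZZ D Y \ ∅) f, V (cf f v) v ≤
      ∑ j, ∑ f ∈ Few D N j M T₀ Y, ∏ v ∈ sp (ZZ D Y \ ∅) f, V (cf f v) v := by
    have h1 : A.filter (fun f => ¬ Rich M T₀ (ZZ D Y \ ∅) f) ⊆
        Finset.univ.biUnion fun j => Few D N j M T₀ Y := by
      intro f hf
      rw [Finset.mem_filter, hA, Finset.mem_filter] at hf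
      obtain ⟨h1, h3⟩ := hf
      unfold Rich at h3
      push Not at h3
      obtain ⟨j, hj⟩ := h3
      rw [Finset.mem_biUnion]
      refine ⟨j, Finset.mem_univ _, ?_⟩
      rw [Few, Finset.mem_filter]
      exact ⟨h1.1, h1.2, hj.le⟩
    refine (Finset.sum_le_sum_of_subset_of_nonneg h1 fun f _ _ => hF f).trans ?_
    exact bi_le _ _ hF
  rw [hR] at hsum
  unfold wS
  linarith

end H55.E2
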