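import Pool.Agent.H55.E2.Cfg

/-!
# H55-E2-RICH: the configurations which are not rich are negligible

`V i v` bounded weights with `∑_{v ∈ ZZ D x} V i v / nm v ≤ log log x + C`. `few_lim`: the sum over the configurations with at most `M` large primes in a class divided by `Y (log Y)^(N-1)` has the limit `0`.
`rich_lim`: the sum over the rich configurations has the same limit as the sum over all configurations.
-/

set_option autoImplicit false
set_option linter.dupNamespace false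

open scoped NumberField
open NumberField IsDedekindDomain Filter Topology
open scoped Classical

noncomputable section

namespace H55.E2

open H63.MA H86.AP H35.CF H57.AN

variable {K : Type} [Field K] [NumberField K] {p : ℕ} {ζ : K} {N : ℕ} [NeZero N]

/-- the upper bound of Mertens for the weights -/
def Mert (D : RD0 K p ζ) (V : Fin N → Pl K → ℝ) (C : ℝ) : Prop :=
  ∀ i, ∀ x : ℝ, 3 ≤ x → ∑ v ∈ ZZ D x, V i v / nm v ≤ Real.log (Real.log x) + C

omit [NeZero N] in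
theorem pb_zz (D : RD0 K p ζ) (W : Fin N → Pl K → ℝ) (Y : ℝ) :
    ∑ v ∈ PB K Y, wt D ∅ W v / nm v = ∑ i, ∑ v ∈ ZZ D Y, W i v / nm v := by
  rw [Finset.sum_comm]
  unfold ZZ
  rw [Finset.sum_filter]
  refine Finset.sum_congr rfl fun v _ => ?_
  unfold wt
  by_cases h : D.Gd v
  · rw [if_pos ⟨h, Finset.notMem_empty v⟩, if_pos h, Finset.sum_div]
  · rw [if_neg fun h' => h h'.1, if_neg h, zero_div]

theorem few_bd (D : RD0 K p ζ) (V : Fin N → Pl K → ℝ) (B : ℝ)
    (hV : ∀ i v, 0 ≤ V i v ∧ V i v ≤ B) (C : ℝ) (hC : 0 ≤ C) (hM : Mert D V C) (j : Fin N)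
    (M : ℕ) (z : ℝ) (hz0 : 0 < z) (hz1 : z ≤ 1) : ∃ U : ℝ, 0 ≤ U ∧ ∀ T₀ Y : ℝ, 3 ≤ T₀ → 3 ≤ Y →
      ∑ f ∈ Few D N j M T₀ Y, ∏ v ∈ sp (ZZ D Y \ ∅) f, V (cf f v) v ≤
        U * (Y / Real.log Y) * (Real.log Y ^ ((N : ℝ) - 1 + z) * Real.log T₀) := by
  obtain ⟨U, hU, hub⟩ := ub K (N * |B|) (by positivity)
  refine ⟨(z ^ M)⁻¹ * U * Real.exp ((N + 1) * C), by positivity, fun T₀ Y hT hY => ?_⟩
  have hlog1 : ∀ x : ℝ, 3 ≤ x → 1 < Real.log x := by
    intro x hx
    rw [Real.lt_log_iff_exp_lt (by linarith)]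
    have := Real.exp_one_lt_d9
    linarith
  have hLY := hlog1 Y hY
  have hLT := hlog1 T₀ hT
  have hnm : ∀ v : Pl K, (0 : ℝ) < nm v := fun v => by
    have := one_lt_nm v
    exact_mod_cast (by omega : 0 < nm v)
  have hVz : ∀ i v, 0 ≤ Vz j z T₀ V i v ∧ Vz j z T₀ V i v ≤ V i v := by
    intro i v
    unfold Vz
    have h1 := (hV i v).1
    split_ifs
    · exact ⟨mul_nonneg h1 hz0.le, by nlinarith⟩
    · rw [mul_one]
      exact ⟨h1, le_rfl⟩
  have hwt : ∀ v, 0 ≤ wt D ∅ (Vz j z T₀ V) v ∧ wt D ∅ (Vz j z T₀ V) v ≤ N * |B| := by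
    intro v
    refine ⟨wt_nonneg D ∅ _ (fun i v => (hVz i v).1) v, ?_⟩
    unfold wt
    split_ifs
    · calc ∑ i, Vz j z T₀ V i v ≤ ∑ _i : Fin N, |B| :=
          Finset.sum_le_sum fun i _ => ((hVz i v).2.trans (hV i v).2).trans (le_abs_self B)
        _ = N * |B| := by
          rw [Finset.sum_const, Finset.card_univ, Fintype.card_fin, nsmul_eq_mul]
    · positivity
  have h1 := few_le D j M T₀ Y z hz0 hz1 V fun i v => (hV i v).1
  have h2 := hub (wt D ∅ (Vz j z T₀ V)) hwt Y (by linarith)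
  have h3 : ∑ v ∈ PB K Y, wt D ∅ (Vz j z T₀ V) v / nm v ≤
      ((N : ℝ) - 1 + z) * Real.log (Real.log Y) + Real.log (Real.log T₀) + (N + 1) * C := by
    rw [pb_zz, ← Finset.add_sum_erase _ _ (Finset.mem_univ j)]
    have e1 : ∑ v ∈ ZZ D Y, Vz j z T₀ V j v / nm v ≤
        (Real.log (Real.log T₀) + C) + z * (Real.log (Real.log Y) + C) := by
      have e2 : ∀ v ∈ ZZ D Y, Vz j z T₀ V j v / nm v ≤
          (if (nm v : ℝ) ≤ T₀ then V j v / nm v else 0) + z * (V j v / nm v) := by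
        intro v _
        have h4 : 0 ≤ V j v / nm v := div_nonneg (hV j v).1 (hnm v).le
        unfold Vz
        by_cases h : T₀ < (nm v : ℝ)
        · rw [if_pos ⟨rfl, h⟩, if_neg (not_le.2 h), zero_add, mul_comm, mul_div_assoc]
        · rw [if_neg fun h' => h h'.2, if_pos (not_lt.1 h), mul_one]
          have := mul_nonneg hz0.le h4
          linarith
      refine (Finset.sum_le_sum e2).trans ?_
      rw [Finset.sum_add_distrib, ← Finset.mul_sum, ← Finset.sum_filter]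
      refine add_le_add ?_ (mul_le_mul_of_nonneg_left (hM j Y hY) hz0.le)
      refine le_trans ?_ (hM j T₀ hT)
      refine Finset.sum_le_sum_of_subset_of_nonneg ?_ fun v _ _ =>
        div_nonneg (hV j v).1 (hnm v).le
      intro v hv
      rw [Finset.mem_filter, mem_zz] at hv
      rw [mem_zz]
      exact ⟨hv.2, hv.1.2⟩
    have e3 : ∑ i ∈ Finset.univ.erase j, ∑ v ∈ ZZ D Y, Vz j z T₀ V i v / nm v ≤
        ((N : ℝ) - 1) * (Real.log (Real.log Y) + C) := by
      have e4 : ∀ i ∈ Finset.univ.erase j, ∑ v ∈ ZZ D Y, Vz j z T₀ V i v / nm v ≤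
          Real.log (Real.log Y) + C := fun i _ =>
        (Finset.sum_le_sum fun v _ => div_le_div_of_nonneg_right (hVz i v).2 (hnm v).le).trans
          (hM i Y hY)
      refine (Finset.sum_le_sum e4).trans (le_of_eq ?_)
      have hN : 1 ≤ N := Nat.one_le_iff_ne_zero.2 (NeZero.ne N)
      rw [Finset.sum_const, Finset.card_erase_of_mem (Finset.mem_univ j), Finset.card_univ,
        Fintype.card_fin, nsmul_eq_mul, Nat.cast_sub hN, Nat.cast_one]
    have e5 : z * C ≤ C := by nlinarith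
    calc _ ≤ (Real.log (Real.log T₀) + C) + z * (Real.log (Real.log Y) + C) +
          ((N : ℝ) - 1) * (Real.log (Real.log Y) + C) := add_le_add e1 e3
      _ ≤ _ := by nlinarith
  have h4 : Real.exp (∑ v ∈ PB K Y, wt D ∅ (Vz j z T₀ V) v / nm v) ≤
      Real.log Y ^ ((N : ℝ) - 1 + z) * Real.log T₀ * Real.exp ((N + 1) * C) := by
    refine (Real.exp_le_exp.2 h3).trans (le_of_eq ?_)
    rw [Real.exp_add, Real.exp_add, Real.exp_log (by linarith), mul_comm ((N : ℝ) - 1 + z),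
      Real.exp_mul, Real.exp_log (by linarith)]
  have hYL : 0 ≤ Y / Real.log Y := by positivity
  calc _ ≤ (z ^ M)⁻¹ * ∑ s ∈ AF K Y, ∏ v ∈ s, wt D ∅ (Vz j z T₀ V) v := h1
    _ ≤ (z ^ M)⁻¹ * (U * (Y / Real.log Y) *
        Real.exp (∑ v ∈ PB K Y, wt D ∅ (Vz j z T₀ V) v / nm v)) :=
        mul_le_mul_of_nonneg_left h2 (by positivity)
    _ ≤ (z ^ M)⁻¹ * (U * (Y / Real.log Y) *
        (Real.log Y ^ ((N : ℝ) - 1 + z) * Real.log T₀ * Real.exp ((N + 1) * C))) :=
        mul_le_mul_of_nonneg_left (mul_le_mul_of_nonneg_left h4 (by positivity)) (by positivity)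
    _ = _ := by ring

theorem few_lim (D : RD0 K p ζ) (V : Fin N → Pl K → ℝ) (B : ℝ)
    (hV : ∀ i v, 0 ≤ V i v ∧ V i v ≤ B) (C : ℝ) (hM : Mert D V C) (j : Fin N)
    (M : ℕ) (ε : ℝ) (hε : 0 < ε) (hε1 : ε < 1) : Tendsto (fun Y : ℝ =>
      (∑ f ∈ Few D N j M (Real.exp (Real.log Y ^ ε)) Y,
        ∏ v ∈ sp (ZZ D Y \ ∅) f, V (cf f v) v) / (Y * Real.log Y ^ (N - 1))) atTop (𝓝 0) := by
  have hM' : Mert D V |C| := fun i x hx => (hM i x hx).trans (by linarith [le_abs_self C])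
  obtain ⟨U, hU, h⟩ := few_bd D V B hV |C| (abs_nonneg C) hM' j M ((1 - ε) / 2) (by linarith)
    (by linarith)
  have hz : Tendsto (fun Y : ℝ => U * Real.log Y ^ (-((1 - ε) / 2))) atTop (𝓝 0) := by
    have := ((tendsto_rpow_neg_atTop (by linarith : 0 < (1 - ε) / 2)).comp
      Real.tendsto_log_atTop).const_mul U
    simpa using this
  have hLε : Tendsto (fun Y : ℝ => Real.log Y ^ ε) atTop atTop :=
    (tendsto_rpow_atTop hε).comp Real.tendsto_log_atTop
  refine squeeze_zero' ?_ ?_ hz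
  · filter_upwards [eventually_ge_atTop (3 : ℝ)] with Y hY
    have h1 : 0 ≤ Real.log Y := Real.log_nonneg (by linarith)
    exact div_nonneg (Finset.sum_nonneg fun f _ => Finset.prod_nonneg fun v _ => (hV _ _).1)
      (mul_nonneg (by linarith) (pow_nonneg h1 _))
  filter_upwards [eventually_ge_atTop (3 : ℝ), hLε.eventually_ge_atTop 2] with Y hY hT
  have hY0 : 0 < Y := by linarith
  have hL1 : 1 < Real.log Y := by
    rw [Real.lt_log_iff_exp_lt hY0]
    have := Real.exp_one_lt_d9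
    linarith
  have hT3 : 3 ≤ Real.exp (Real.log Y ^ ε) := by
    have h1 := Real.add_one_le_exp (Real.log Y ^ ε)
    linarith
  have h1 := h (Real.exp (Real.log Y ^ ε)) Y hT3 hY
  rw [Real.log_exp] at h1
  have hL0 : 0 < Real.log Y := by linarith
  rw [div_le_iff₀ (by positivity)]
  refine h1.trans (le_of_eq ?_)
  have hN : 1 ≤ N := Nat.one_le_iff_ne_zero.2 (NeZero.ne N)
  have e1 : Real.log Y ^ ((N : ℝ) - 1 + (1 - ε) / 2) * Real.log Y ^ ε =
      Real.log Y ^ (-((1 - ε) / 2)) * Real.log Y ^ (N - 1) * Real.log Y := by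
    rw [← Real.rpow_natCast, Nat.cast_sub hN, Nat.cast_one, ← Real.rpow_add hL0,
      ← Real.rpow_add hL0, ← Real.rpow_add_one hL0.ne']
    congr 1
    ring
  rw [e1]
  field_simp

theorem rich_lim (D : RD0 K p ζ) (V : Fin N → Pl K → ℝ) (B : ℝ)
    (hV : ∀ i v, 0 ≤ V i v ∧ V i v ≤ B) (C : ℝ) (hM : Mert D V C) (l : ℝ)
    (hl : Tendsto (fun Y : ℝ => (∑ s ∈ AF K Y, ∏ v ∈ s, wt D ∅ V v) /
      (Y * Real.log Y ^ (N - 1))) atTop (𝓝 l)) (M : ℕ) (ε : ℝ) (hε : 0 < ε) (hε1 : ε < 1) :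
    Tendsto (fun Y : ℝ => wS D N M (Real.exp (Real.log Y ^ ε)) Y ∅ V /
      (Y * Real.log Y ^ (N - 1))) atTop (𝓝 l) := by
  have h0 : Tendsto (fun Y : ℝ => (∑ s ∈ AF K Y, ∏ v ∈ s, wt D ∅ V v) /
      (Y * Real.log Y ^ (N - 1)) - ∑ j, (∑ f ∈ Few D N j M (Real.exp (Real.log Y ^ ε)) Y,
        ∏ v ∈ sp (ZZ D Y \ ∅) f, V (cf f v) v) / (Y * Real.log Y ^ (N - 1))) atTop (𝓝 l) := by
    have h1 := hl.sub (tendsto_finsetSum (Finset.univ : Finset (Fin N)) fun j _ =>
      few_lim D V B hV C hM j M ε hε hε1)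
    rwa [Finset.sum_const_zero, sub_zero] at h1
  refine tendsto_of_tendsto_of_tendsto_of_le_of_le' h0 hl ?_ ?_
  · filter_upwards [eventually_ge_atTop (3 : ℝ)] with Y hY
    have h1 : 0 < Real.log Y := Real.log_pos (by linarith)
    rw [← Finset.sum_div, ← sub_div]
    exact div_le_div_of_nonneg_right (ws_ge D M _ Y V fun i v => (hV i v).1) (by positivity)
  · filter_upwards [eventually_ge_atTop (3 : ℝ)] with Y hY
    have h1 : 0 < Real.log Y := Real.log_pos (by linarith)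
    exact div_le_div_of_nonneg_right (ws_le D M _ Y ∅ V fun i v => (hV i v).1) (by positivity)

end H55.E2
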